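import Pool.Agent.Helper93.T53.StD

/-!
# Levels `5·3^n`, module ITR: iteration of the leading forms
-/

set_option autoImplicit false
set_option maxHeartbeats 1000000

namespace Pool.Agent.Helper73.T53

open Pool.Agent.Helper14.CV (Homog EqC act Tl StFar StFex)
open Pool.Agent.Helper28.WK (Tw evw)
open Pool.Agent.Helper78.W3 (tr Fn3 Tm opL op3 mulL mulT negL Wd3 dX dY oD oN Lw sS M5 bb3 S3PlA S3Trm S3Low0 S3Nf S3Exp S3Lw1 S3Bb rY3)
open Pool.Agent.Helper28.T5 (HTy SymH)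
open Pool.Agent.Helper83.T5C (SHHk SHHkS LBH)
open Pool.Agent.Helper93.T53

section lists

variable {q q' : ℕ}

private theorem opL_nil : (opL [] : Module.End (ZMod 3) (Fn3 q q')) = 0 := rfl

private theorem opL_cons (t : Tm) (L : List Tm) : (opL (t :: L) : Module.End (ZMod 3) (Fn3 q q')) =
    ((t.1 : ℤ) : ZMod 3) • op3 t.2.1 t.2.2.1 t.2.2.2.1 t.2.2.2.2 + opL L := by
  unfold opL
  rw [List.map_cons, List.sum_cons]

private theorem opL_append (L L' : List Tm) :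
    (opL (L ++ L') : Module.End (ZMod 3) (Fn3 q q')) = opL L + opL L' := by
  unfold opL
  rw [List.map_append, List.sum_append]

private theorem opL_scl (n : ℤ) (L : List Tm) :
    (opL (scT n L) : Module.End (ZMod 3) (Fn3 q q')) = ((n : ℤ) : ZMod 3) • opL L := by
  induction L with
  | nil => rw [show scT n [] = [] from rfl, opL_nil, smul_zero]
  | cons t L ih =>
    rw [show scT n (t :: L) = (n * t.1, t.2) :: scT n L from rfl, opL_cons, opL_cons, ih, smul_add, smul_smul]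
    push_cast
    rfl

end lists

private theorem op3_mul (hm : S3Trm) {r s : ℕ} {t t' : Tm} (h : GdT t) (h' : GdT t') :
    (op3 t.2.1 t.2.2.1 t.2.2.2.1 t.2.2.2.2 * op3 t'.2.1 t'.2.2.1 t'.2.2.2.1 t'.2.2.2.2 :
      Module.End (ZMod 3) (Fn3 (3 ^ r) (3 ^ s))) =
    op3 (mulT t t').2.1 (mulT t t').2.2.1 (mulT t t').2.2.2.1 (mulT t t').2.2.2.2 := by
  apply LinearMap.ext
  intro F
  exact (hm (ZMod 3) r s F).1 t.2.1 t.2.2.1 t.2.2.2.1 t.2.2.2.2 t'.2.1 t'.2.2.1 t'.2.2.2.1 t'.2.2.2.2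
    h.1 h.2 h'.1 h'.2

private theorem opL_mulT (hm : S3Trm) {r s : ℕ} {t : Tm} (h : GdT t) (L' : List Tm)
    (h' : ∀ t' ∈ L', GdT t') :
    (opL (L'.map fun t' => mulT t t') : Module.End (ZMod 3) (Fn3 (3 ^ r) (3 ^ s))) =
    (((t.1 : ℤ) : ZMod 3) • op3 t.2.1 t.2.2.1 t.2.2.2.1 t.2.2.2.2) * opL L' := by
  induction L' with
  | nil => rw [List.map_nil, opL_nil, mul_zero]
  | cons a L' ih =>
    rw [List.map_cons, opL_cons, opL_cons, ih (fun t' ht' => h' t' (List.mem_cons_of_mem _ ht')), mul_add,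
      smul_mul_smul_comm, op3_mul hm h (h' a List.mem_cons_self)]
    have e : (((mulT t a).1 : ℤ) : ZMod 3) = ((t.1 : ℤ) : ZMod 3) * ((a.1 : ℤ) : ZMod 3) := by
      unfold mulT
      push_cast
      rfl
    rw [e]

private theorem opL_mul (hm : S3Trm) {r s : ℕ} (L L' : List Tm) (h : ∀ t ∈ L, GdT t)
    (h' : ∀ t' ∈ L', GdT t') :
    (opL (mulL L L') : Module.End (ZMod 3) (Fn3 (3 ^ r) (3 ^ s))) = opL L * opL L' := by
  induction L with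
  | nil => exact (zero_mul _).symm
  | cons a L ih =>
    have e : mulL (a :: L) L' = (L'.map fun t' => mulT a t') ++ mulL L L' := rfl
    rw [e, opL_append, opL_mulT hm (h a List.mem_cons_self) L' h',
      ih (fun t ht => h t (List.mem_cons_of_mem _ ht)), opL_cons, add_mul]

private theorem sum9 {A : Type} [AddCommMonoid A] (f : Fin 9 → A) : ∑ i, f i =
    f 0 + f 1 + f 2 + f 3 + f 4 + f 5 + f 6 + f 7 + f 8 := by
  rw [Fin.sum_univ_castSucc, Fin.sum_univ_eight]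
  rfl

private theorem mm_apply (hm : S3Trm) {r s : ℕ} (A B : Fin 9 → Fin 9 → List Tm)
    (hA : ∀ i f, ∀ t ∈ A i f, GdT t) (hB : ∀ i f, ∀ t ∈ B i f, GdT t)
    (F : Fin 9 → Fn3 (3 ^ r) (3 ^ s)) (i : Fin 9) :
    ∑ g : Fin 9, opL (A i g) (∑ f : Fin 9, opL (B g f) (F f)) = ∑ f : Fin 9, opL (mmT A B i f) (F f) := by
  have e : ∀ f : Fin 9, opL (mmT A B i f) (F f) = ∑ g : Fin 9, opL (A i g) (opL (B g f) (F f)) := by
    intro f
    rw [sum9]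
    simp only [mmT, opL_append, opL_mul hm _ _ (hA _ _) (hB _ _), LinearMap.add_apply,
      Module.End.mul_apply]
  rw [Finset.sum_congr rfl fun f _ => e f, Finset.sum_comm]
  refine Finset.sum_congr rfl fun g _ => ?_
  rw [map_sum]

private theorem id_apply' (hm : S3Trm) {r s : ℕ} (c : ℤ) (F : Fin 9 → Fn3 (3 ^ r) (3 ^ s)) (i : Fin 9) :
    ∑ f : Fin 9, opL (idT c i f) (F f) = ((c : ℤ) : ZMod 3) • F i := by
  rw [Finset.sum_eq_single i]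
  · have h1 : op3 1 0 0 1 (F i) = F i := (hm (ZMod 3) r s (F i)).2.1
    rw [show idT c i i = [(c, 1, 0, 0, 1)] from if_pos rfl, opL_cons, opL_nil, add_zero,
      LinearMap.smul_apply, h1]
  · intro f _ hf
    rw [show idT c i f = [] from if_neg (Ne.symm hf), opL_nil, LinearMap.zero_apply]
  · intro h
    exact absurd (Finset.mem_univ i) h

private theorem ev_apply {r s : ℕ} (M : Fin 9 → Fin 9 → List Tm)
    (F : Fin 9 → Fn3 (3 ^ r) (3 ^ s)) :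
    ∑ f : Fin 9, opL (evL M f) (F f) = (∑ f : Fin 9, opL (M 0 f) (F f)) - (∑ f : Fin 9, opL (M 1 f) (F f))
      - (∑ f : Fin 9, opL (M 2 f) (F f)) - (∑ f : Fin 9, opL (M 4 f) (F f)) -
      ∑ f : Fin 9, opL (M 5 f) (F f) := by
  simp only [evL, opL_append, opL_scl, LinearMap.add_apply, LinearMap.smul_apply,
    Finset.sum_add_distrib, ← Finset.smul_sum]
  push_cast
  simp only [neg_smul, one_smul]
  abel

section

variable {r s : ℕ}

/-- the nine functions -/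
private noncomputable def P (r s : ℕ) (G : ℤ → ℤ → ZMod 3) (f : Fin 9) : Fn3 (3 ^ r) (3 ^ s) := pfT G f

private theorem P_add (G H : ℤ → ℤ → ZMod 3) (f : Fin 9) : P r s (G + H) f = P r s G f + P r s H f := by
  funext x y
  simp only [P, pfT, edgeT, Pi.add_apply]
  ring

private theorem P_sub (G H : ℤ → ℤ → ZMod 3) (f : Fin 9) : P r s (G - H) f = P r s G f - P r s H f := by
  funext x y
  simp only [P, pfT, edgeT, Pi.sub_apply]
  ring

private theorem symT (hb : THkB) (l : ℕ) (hl : l.Prime) (h3 : l ≠ 3) (h5 : l ≠ 5)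
    {G : ℤ → ℤ → ZMod 3} (hG : SymH 3 (r + 1) (s + 1) G) :
    SymH 3 (r + 1) (s + 1) (Tl l (3 ^ (r + 1)) G) :=
  (hb (ZMod 3) _ (r + 1) (s + 1) l G hl h3 h5 hG).1

private theorem symSub {G H : ℤ → ℤ → ZMod 3} (hG : SymH 3 (r + 1) (s + 1) G)
    (hH : SymH 3 (r + 1) (s + 1) H) : SymH 3 (r + 1) (s + 1) (G - H) := by
  rw [sub_eq_add_neg]
  exact SymH.add hG (SymH.neg hH)

private theorem sym2 (hb : THkB) {G : ℤ → ℤ → ZMod 3} (hG : SymH 3 (r + 1) (s + 1) G) :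
    SymH 3 (r + 1) (s + 1) (Tl 2 (3 ^ (r + 1)) G) :=
  symT hb 2 (by norm_num) (by norm_num) (by norm_num) hG

private theorem sym7 (hb : THkB) {G : ℤ → ℤ → ZMod 3} (hG : SymH 3 (r + 1) (s + 1) G) :
    SymH 3 (r + 1) (s + 1) (Tl 7 (3 ^ (r + 1)) G) :=
  symT hb 7 (by norm_num) (by norm_num) (by norm_num) hG

private theorem sym11 (hb : THkB) {G : ℤ → ℤ → ZMod 3} (hG : SymH 3 (r + 1) (s + 1) G) :
    SymH 3 (r + 1) (s + 1) (Tl 11 (3 ^ (r + 1)) G) :=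
  symT hb 11 (by norm_num) (by norm_num) (by norm_num) hG

private theorem sym13 (hb : THkB) {G : ℤ → ℤ → ZMod 3} (hG : SymH 3 (r + 1) (s + 1) G) :
    SymH 3 (r + 1) (s + 1) (Tl 13 (3 ^ (r + 1)) G) :=
  symT hb 13 (by norm_num) (by norm_num) (by norm_num) hG

private theorem sym17 (hb : THkB) {G : ℤ → ℤ → ZMod 3} (hG : SymH 3 (r + 1) (s + 1) G) :
    SymH 3 (r + 1) (s + 1) (Tl 17 (3 ^ (r + 1)) G) :=
  symT hb 17 (by norm_num) (by norm_num) (by norm_num) hG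

private theorem sym19 (hb : THkB) {G : ℤ → ℤ → ZMod 3} (hG : SymH 3 (r + 1) (s + 1) G) :
    SymH 3 (r + 1) (s + 1) (Tl 19 (3 ^ (r + 1)) G) :=
  symT hb 19 (by norm_num) (by norm_num) (by norm_num) hG

private theorem sym23 (hb : THkB) {G : ℤ → ℤ → ZMod 3} (hG : SymH 3 (r + 1) (s + 1) G) :
    SymH 3 (r + 1) (s + 1) (Tl 23 (3 ^ (r + 1)) G) :=
  symT hb 23 (by norm_num) (by norm_num) (by norm_num) hG

private theorem symU (hb : THkB) {G : ℤ → ℤ → ZMod 3} (hG : SymH 3 (r + 1) (s + 1) G) :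
    SymH 3 (r + 1) (s + 1) (UoT (3 ^ (r + 1)) G) :=
  SymH.add (SymH.add (sym13 hb hG) (sym17 hb hG)) hG

private theorem symV (hb : THkB) {G : ℤ → ℤ → ZMod 3} (hG : SymH 3 (r + 1) (s + 1) G) :
    SymH 3 (r + 1) (s + 1) (VoT (3 ^ (r + 1)) G) :=
  symSub (symSub (SymH.add (symSub (symSub (symSub (SymH.add (SymH.add (sym13 hb hG) (sym17 hb hG))
    (sym19 hb hG)) (sym7 hb hG)) (sym11 hb hG)) (sym23 hb hG)) (sym7 hb (sym7 hb hG)))
    (sym2 hb (sym11 hb hG))) (sym2 hb (sym17 hb hG))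

private theorem PT {l : ℕ} {T : Fin 9 → Fin 9 → List Tm} (h : THk l T) {G : ℤ → ℤ → ZMod 3}
    (hG : SymH 3 (r + 1) (s + 1) G) (i : Fin 9) :
    P r s (Tl l (3 ^ (r + 1)) G) i = ∑ f : Fin 9, opL (T i f) (P r s G f) := h r s G hG i

private theorem PTT {l l' : ℕ} {T T' : Fin 9 → Fin 9 → List Tm} (h : THk l T) (h' : THk l' T')
    (hm : S3Trm) (g : ∀ i f, ∀ t ∈ T i f, GdT t) (g' : ∀ i f, ∀ t ∈ T' i f, GdT t)
    {G : ℤ → ℤ → ZMod 3} (hG : SymH 3 (r + 1) (s + 1) G)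
    (hG' : SymH 3 (r + 1) (s + 1) (Tl l' (3 ^ (r + 1)) G)) (i : Fin 9) :
    P r s (Tl l (3 ^ (r + 1)) (Tl l' (3 ^ (r + 1)) G)) i =
      ∑ f : Fin 9, opL (mmT T T' i f) (P r s G f) := by
  rw [PT h hG' i, ← mm_apply hm T T' g g' (P r s G) i]
  simp_rw [PT h' hG]

private theorem PU (h13 : THk 13 T13T) (h17 : THk 17 T17T) (hm : S3Trm) {G : ℤ → ℤ → ZMod 3}
    (hG : SymH 3 (r + 1) (s + 1) G) (i : Fin 9) :
    P r s (UoT (3 ^ (r + 1)) G) i = ∑ f : Fin 9, opL (ULT i f) (P r s G f) := by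
  have e := id_apply' hm 1 (P r s G) i
  have e1 : P r s (UoT (3 ^ (r + 1)) G) i = P r s (Tl 13 (3 ^ (r + 1)) G) i +
      P r s (Tl 17 (3 ^ (r + 1)) G) i + P r s G i := by
    unfold UoT
    rw [P_add, P_add]
  rw [e1, PT h13 hG i, PT h17 hG i]
  simp only [ULT, opL_append, LinearMap.add_apply, Finset.sum_add_distrib]
  rw [e]
  push_cast
  rw [one_smul]

private theorem PV (hb : THkB) (h2 : THk 2 T2T) (h7 : THk 7 T7T) (h11 : THk 11 T11T)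
    (h13 : THk 13 T13T) (h17 : THk 17 T17T) (h19 : THk 19 T19T) (h23 : THk 23 T23T) (hm : S3Trm)
    (hg : TCeG) {G : ℤ → ℤ → ZMod 3} (hG : SymH 3 (r + 1) (s + 1) G) (i : Fin 9) :
    P r s (VoT (3 ^ (r + 1)) G) i = ∑ f : Fin 9, opL (VLT i f) (P r s G f) := by
  have g2 : ∀ i f, ∀ t ∈ T2T i f, GdT t := fun i f => (hg.1 i f).1
  have g7 : ∀ i f, ∀ t ∈ T7T i f, GdT t := fun i f => (hg.1 i f).2.1
  have g11 : ∀ i f, ∀ t ∈ T11T i f, GdT t := fun i f => (hg.1 i f).2.2.1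
  have g17 : ∀ i f, ∀ t ∈ T17T i f, GdT t := fun i f => (hg.1 i f).2.2.2.2.1
  have e1 : P r s (VoT (3 ^ (r + 1)) G) i = P r s (Tl 13 (3 ^ (r + 1)) G) i +
      P r s (Tl 17 (3 ^ (r + 1)) G) i + P r s (Tl 19 (3 ^ (r + 1)) G) i -
      P r s (Tl 7 (3 ^ (r + 1)) G) i - P r s (Tl 11 (3 ^ (r + 1)) G) i -
      P r s (Tl 23 (3 ^ (r + 1)) G) i + P r s (Tl 7 (3 ^ (r + 1)) (Tl 7 (3 ^ (r + 1)) G)) i -
      P r s (Tl 2 (3 ^ (r + 1)) (Tl 11 (3 ^ (r + 1)) G)) i -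
      P r s (Tl 2 (3 ^ (r + 1)) (Tl 17 (3 ^ (r + 1)) G)) i := by
    unfold VoT
    rw [P_sub, P_sub, P_add, P_sub, P_sub, P_sub, P_add, P_add]
  rw [e1, PT h13 hG i, PT h17 hG i, PT h19 hG i, PT h7 hG i, PT h11 hG i, PT h23 hG i,
    PTT h7 h7 hm g7 g7 hG (sym7 hb hG) i, PTT h2 h11 hm g2 g11 hG (sym11 hb hG) i,
    PTT h2 h17 hm g2 g17 hG (sym17 hb hG) i]
  simp only [VLT, opL_append, opL_scl, LinearMap.add_apply, LinearMap.smul_apply, Finset.sum_add_distrib,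
    ← Finset.smul_sum]
  push_cast
  simp only [neg_smul, one_smul]
  abel

private theorem PP (h2 : THk 2 T2T) (h7 : THk 7 T7T) (h11 : THk 11 T11T) (h17 : THk 17 T17T)
    (h19 : THk 19 T19T) (h23 : THk 23 T23T) (hm : S3Trm) {G : ℤ → ℤ → ZMod 3}
    (hG : SymH 3 (r + 1) (s + 1) G) (c : Fin 6) (i : Fin 9) :
    P r s (PoT (3 ^ (r + 1)) c.val G) i = ∑ f : Fin 9, opL (PLT c i f) (P r s G f) := by
  have e := id_apply' hm 1 (P r s G) i
  have e' := id_apply' hm (-1) (P r s G) i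
  have q0 : PoT (3 ^ (r + 1)) 0 G = Tl 19 (3 ^ (r + 1)) G + Tl 11 (3 ^ (r + 1)) G +
      Tl 7 (3 ^ (r + 1)) G - Tl 2 (3 ^ (r + 1)) G - G := rfl
  have q1 : PoT (3 ^ (r + 1)) 1 G = Tl 7 (3 ^ (r + 1)) G + G - Tl 2 (3 ^ (r + 1)) G := rfl
  have q2 : PoT (3 ^ (r + 1)) 2 G = Tl 23 (3 ^ (r + 1)) G := rfl
  have q3 : PoT (3 ^ (r + 1)) 3 G = Tl 19 (3 ^ (r + 1)) G + Tl 17 (3 ^ (r + 1)) G + G := rfl
  have q4 : PoT (3 ^ (r + 1)) 4 G = G := rfl
  have q5 : PoT (3 ^ (r + 1)) 5 G = Tl 2 (3 ^ (r + 1)) G := rfl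
  fin_cases c
  · show P r s (PoT (3 ^ (r + 1)) 0 G) i = ∑ f : Fin 9, opL (PLT 0 i f) (P r s G f)
    rw [q0, P_sub, P_sub, P_add, P_add, PT h19 hG i, PT h11 hG i, PT h7 hG i, PT h2 hG i]
    simp only [PLT, opL_append, opL_scl, LinearMap.add_apply, LinearMap.smul_apply,
      Finset.sum_add_distrib, ← Finset.smul_sum]
    rw [e']
    push_cast
    simp only [neg_smul, one_smul]
    abel
  · show P r s (PoT (3 ^ (r + 1)) 1 G) i = ∑ f : Fin 9, opL (PLT 1 i f) (P r s G f)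
    rw [q1, P_sub, P_add, PT h7 hG i, PT h2 hG i]
    simp only [PLT, opL_append, opL_scl, LinearMap.add_apply, LinearMap.smul_apply,
      Finset.sum_add_distrib, ← Finset.smul_sum]
    rw [e]
    push_cast
    simp only [neg_smul, one_smul]
    abel
  · show P r s (PoT (3 ^ (r + 1)) 2 G) i = ∑ f : Fin 9, opL (PLT 2 i f) (P r s G f)
    rw [q2, PT h23 hG i]
    rfl
  · show P r s (PoT (3 ^ (r + 1)) 3 G) i = ∑ f : Fin 9, opL (PLT 3 i f) (P r s G f)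
    rw [q3, P_add, P_add, PT h19 hG i, PT h17 hG i]
    simp only [PLT, opL_append, LinearMap.add_apply, Finset.sum_add_distrib]
    rw [e]
    push_cast
    rw [one_smul]
  · show P r s (PoT (3 ^ (r + 1)) 4 G) i = ∑ f : Fin 9, opL (PLT 4 i f) (P r s G f)
    rw [q4]
    simp only [PLT]
    rw [e]
    push_cast
    rw [one_smul]
  · show P r s (PoT (3 ^ (r + 1)) 5 G) i = ∑ f : Fin 9, opL (PLT 5 i f) (P r s G f)
    rw [q5, PT h2 hG i]
    rfl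

private theorem lw_pow (hl : S3Low0) {O : Module.End (ZMod 3) (Fn3 (3 ^ r) (3 ^ s))} {k : ℤ}
    (hO : Lw O k) (n : ℕ) : Lw (O ^ n) (k * n) := by
  obtain ⟨hm, -, -, -, -, h1, -⟩ := hl r s
  induction n with
  | zero => simpa using h1
  | succ n ih =>
    rw [pow_succ]
    have := hm _ _ _ _ ih hO
    rwa [show k * n + k = k * (n + 1 : ℕ) by push_cast; ring] at this

/-- operators which are polynomials in `dX`, `dY` and lower by `b` -/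
private structure OpK (B : Module.End (ZMod 3) (Fn3 (3 ^ r) (3 ^ s))) (b : ℤ) : Prop where
  lw : Lw B b
  cm : ∀ O : Module.End (ZMod 3) (Fn3 (3 ^ r) (3 ^ s)), Commute O dX → Commute O dY → Commute O B

private theorem oX (hl : S3Low0) : OpK (dX : Module.End (ZMod 3) (Fn3 (3 ^ r) (3 ^ s))) 1 :=
  ⟨(hl r s).2.2.2.2.2.2.1, fun _ h _ => h⟩

private theorem oY (hl : S3Low0) : OpK (dY : Module.End (ZMod 3) (Fn3 (3 ^ r) (3 ^ s))) 1 :=
  ⟨(hl r s).2.2.2.2.2.2.2.1, fun _ _ h => h⟩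

private theorem oMul (hl : S3Low0) {A B : Module.End (ZMod 3) (Fn3 (3 ^ r) (3 ^ s))} {a b : ℤ}
    (hA : OpK A a) (hB : OpK B b) : OpK (A * B) (a + b) :=
  ⟨(hl r s).1 _ _ _ _ hA.lw hB.lw, fun O h h' => (hA.cm O h h').mul_right (hB.cm O h h')⟩

private theorem oAdd (hl : S3Low0) {A B : Module.End (ZMod 3) (Fn3 (3 ^ r) (3 ^ s))} {a : ℤ}
    (hA : OpK A a) (hB : OpK B a) : OpK (A + B) a :=
  ⟨(hl r s).2.1 _ _ _ hA.lw hB.lw, fun O h h' => (hA.cm O h h').add_right (hB.cm O h h')⟩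

private theorem oNeg (hl : S3Low0) {A : Module.End (ZMod 3) (Fn3 (3 ^ r) (3 ^ s))} {a : ℤ}
    (hA : OpK A a) : OpK (-A) a := by
  refine ⟨?_, fun O h h' => (hA.cm O h h').neg_right⟩
  have h1 := (hl r s).2.2.1 A (-1) a hA.lw
  have h2 : ((-1 : ZMod 3)) • A = -A := by
    refine LinearMap.ext fun F => ?_
    funext z w
    show (-1 : ZMod 3) * (A F z w) = -(A F z w)
    ring
  rw [← h2]
  exact h1

private theorem oSub (hl : S3Low0) {A B : Module.End (ZMod 3) (Fn3 (3 ^ r) (3 ^ s))} {a : ℤ}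
    (hA : OpK A a) (hB : OpK B a) : OpK (A - B) a := by
  rw [sub_eq_add_neg]
  exact oAdd hl hA (oNeg hl hB)

private theorem oPow (hl : S3Low0) {A : Module.End (ZMod 3) (Fn3 (3 ^ r) (3 ^ s))} {a : ℤ}
    (hA : OpK A a) (n : ℕ) : OpK (A ^ n) (a * n) :=
  ⟨lw_pow hl hA.lw n, fun O h h' => (hA.cm O h h').pow_right n⟩

private theorem oCast {A : Module.End (ZMod 3) (Fn3 (3 ^ r) (3 ^ s))} {a b : ℤ}
    (hA : OpK A a) (h : a = b) : OpK A b := h ▸ hA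

/-- functionals of nine functions -/
private structure FnK (Φ : (Fin 9 → Fn3 (3 ^ r) (3 ^ s)) → Fn3 (3 ^ r) (3 ^ s)) (a : ℤ) : Prop where
  sb : ∀ F F' : Fin 9 → Fn3 (3 ^ r) (3 ^ s), Φ F - Φ F' = Φ (fun f => F f - F' f)
  lo : ∀ (e : ℤ) (F : Fin 9 → Fn3 (3 ^ r) (3 ^ s)), (∀ f, F f ∈ Wd3 e) → Φ F ∈ Wd3 (e - a)
  co : ∀ O : Module.End (ZMod 3) (Fn3 (3 ^ r) (3 ^ s)), Commute O dX → Commute O dY →
    ∀ F : Fin 9 → Fn3 (3 ^ r) (3 ^ s), Φ (fun f => O (F f)) = O (Φ F)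

private theorem fC (f : Fin 9) : FnK (fun F : Fin 9 → Fn3 (3 ^ r) (3 ^ s) => F f) 0 :=
  ⟨fun _ _ => rfl, fun e F h => by simpa using h f, fun _ _ _ _ => rfl⟩

private theorem fAdd {Φ Ψ : (Fin 9 → Fn3 (3 ^ r) (3 ^ s)) → Fn3 (3 ^ r) (3 ^ s)} {a : ℤ}
    (h : FnK Φ a) (h' : FnK Ψ a) : FnK (fun F => Φ F + Ψ F) a := by
  refine ⟨fun F F' => ?_, fun e F hF => Submodule.add_mem _ (h.lo e F hF) (h'.lo e F hF),
    fun O hx hy F => ?_⟩
  · show Φ F + Ψ F - (Φ F' + Ψ F') = Φ (fun f => F f - F' f) + Ψ (fun f => F f - F' f)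
    rw [← h.sb, ← h'.sb]
    abel
  · show Φ (fun f => O (F f)) + Ψ (fun f => O (F f)) = O (Φ F + Ψ F)
    rw [h.co O hx hy, h'.co O hx hy, map_add]

private theorem fNeg {Φ : (Fin 9 → Fn3 (3 ^ r) (3 ^ s)) → Fn3 (3 ^ r) (3 ^ s)} {a : ℤ}
    (h : FnK Φ a) : FnK (fun F => -Φ F) a := by
  refine ⟨fun F F' => ?_, fun e F hF => Submodule.neg_mem _ (h.lo e F hF), fun O hx hy F => ?_⟩
  · show -Φ F - -Φ F' = -Φ (fun f => F f - F' f)
    rw [← h.sb]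
    abel
  · show -Φ (fun f => O (F f)) = O (-Φ F)
    rw [h.co O hx hy, map_neg]

private theorem fSub {Φ Ψ : (Fin 9 → Fn3 (3 ^ r) (3 ^ s)) → Fn3 (3 ^ r) (3 ^ s)} {a : ℤ}
    (h : FnK Φ a) (h' : FnK Ψ a) : FnK (fun F => Φ F - Ψ F) a := by
  have := fAdd h (fNeg h')
  simpa only [← sub_eq_add_neg] using this

private theorem fOp {Φ : (Fin 9 → Fn3 (3 ^ r) (3 ^ s)) → Fn3 (3 ^ r) (3 ^ s)} {b : ℤ}
    {B : Module.End (ZMod 3) (Fn3 (3 ^ r) (3 ^ s))} (hB : OpK B b) (h : FnK Φ 0) :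
    FnK (fun F => B (Φ F)) b := by
  refine ⟨fun F F' => ?_, fun e F hF => ?_, fun O hx hy F => ?_⟩
  · show B (Φ F) - B (Φ F') = B (Φ (fun f => F f - F' f))
    rw [← h.sb, map_sub]
  · have h1 := h.lo e F hF
    rw [sub_zero] at h1
    exact hB.lw e _ h1
  · show B (Φ (fun f => O (F f))) = O (B (Φ F))
    rw [h.co O hx hy]
    have := LinearMap.congr_fun (hB.cm O hx hy).eq (Φ F)
    exact this.symm

private theorem fPh (hl : S3Low0) (c : ℕ) (hc : c ≤ 5) :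
    FnK (phT c : (Fin 9 → Fn3 (3 ^ r) (3 ^ s)) → Fn3 (3 ^ r) (3 ^ s)) (aT c : ℤ) := by
  have x1 := oX (r := r) (s := s) hl
  have y1 := oY (r := r) (s := s) hl
  have x2 : OpK (dX ^ 2 : Module.End (ZMod 3) (Fn3 (3 ^ r) (3 ^ s))) 2 := oCast (oPow hl x1 2) (by norm_num)
  have y2 : OpK (dY ^ 2 : Module.End (ZMod 3) (Fn3 (3 ^ r) (3 ^ s))) 2 := oCast (oPow hl y1 2) (by norm_num)
  have x3 : OpK (dX ^ 3 : Module.End (ZMod 3) (Fn3 (3 ^ r) (3 ^ s))) 3 := oCast (oPow hl x1 3) (by norm_num)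
  have y3 : OpK (dY ^ 3 : Module.End (ZMod 3) (Fn3 (3 ^ r) (3 ^ s))) 3 := oCast (oPow hl y1 3) (by norm_num)
  have xy : OpK (dX * dY : Module.End (ZMod 3) (Fn3 (3 ^ r) (3 ^ s))) 2 := oCast (oMul hl x1 y1) (by norm_num)
  have x2y : OpK (dX ^ 2 * dY : Module.End (ZMod 3) (Fn3 (3 ^ r) (3 ^ s))) 3 := oCast (oMul hl x2 y1) (by norm_num)
  have xy2 : OpK (dX * dY ^ 2 : Module.End (ZMod 3) (Fn3 (3 ^ r) (3 ^ s))) 3 := oCast (oMul hl x1 y2) (by norm_num)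
  obtain rfl | rfl | rfl | rfl | rfl | rfl : c = 0 ∨ c = 1 ∨ c = 2 ∨ c = 3 ∨ c = 4 ∨ c = 5 := by omega
  · have h := fAdd (fAdd (fAdd (fNeg (fOp x2 (fC 0)))
      (fOp (oAdd hl (oAdd hl x2 xy) y2) (fAdd (fC 1) (fC 4))))
      (fOp (oSub hl xy y2) (fC 2)))
      (fOp (oAdd hl (oSub hl x2 xy) y2) (fC 3))
    exact h
  · exact fOp (oSub hl x1 y1) (fAdd (fAdd (fAdd (fC 1) (fC 2)) (fC 3)) (fC 4))
  · exact fSub (fNeg (fOp (oAdd hl x1 y1) (fAdd (fC 1) (fC 4)))) (fOp y1 (fAdd (fC 5) (fC 6)))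
  · exact fAdd (fAdd (fOp (oAdd hl (oSub hl x3 x2y) xy2) (fAdd (fC 1) (fC 4)))
      (fOp (oAdd hl (oAdd hl (oSub hl (oNeg hl x3) x2y) xy2) y3) (fAdd (fC 2) (fC 3))))
      (fOp (oSub hl (oSub hl x2y xy2) y3) (fAdd (fC 5) (fC 6)))
  · exact fSub (fSub (fSub (fSub (fC 0) (fC 1)) (fC 2)) (fC 4)) (fC 5)
  · exact fAdd (fSub (fAdd (fC 1) (fC 2)) (fC 3)) (fC 4)

private theorem opQ (hl : S3Low0) : OpK (QoT : Module.End (ZMod 3) (Fn3 (3 ^ r) (3 ^ s))) 2 :=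
  oCast (oMul hl (oX hl) (oY hl)) (by norm_num)

private theorem opLo (hl : S3Low0) : OpK (LoT : Module.End (ZMod 3) (Fn3 (3 ^ r) (3 ^ s))) 4 :=
  oAdd hl (oAdd hl (oCast (oMul hl (oPow hl (oX hl) 3) (oY hl)) (by norm_num))
    (oCast (oMul hl (oPow hl (oX hl) 2) (oPow hl (oY hl) 2)) (by norm_num)))
    (oCast (oMul hl (oX hl) (oPow hl (oY hl) 3)) (by norm_num))

private theorem stepL (hl : S3Low0) {O : Module.End (ZMod 3) (Fn3 (3 ^ r) (3 ^ s))} {k e : ℤ} (hO : Lw O k)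
    {F H F' : Fn3 (3 ^ r) (3 ^ s)} (hH : F - H ∈ Wd3 (e - 1)) (hF' : F' - O F ∈ Wd3 (e - k - 1)) :
    F' - O H ∈ Wd3 (e - k - 1) := by
  have h2 : O (F - H) ∈ Wd3 (e - k - 1) := by
    have := hO (e - 1) _ hH
    rwa [show e - 1 - k = e - k - 1 by ring] at this
  have h3 := Submodule.add_mem _ hF' h2
  rwa [map_sub, sub_add_sub_cancel] at h3

private theorem stepM (hl : S3Low0) {O : Module.End (ZMod 3) (Fn3 (3 ^ r) (3 ^ s))} {k e : ℤ} (hO : Lw O k)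
    {F F' : Fn3 (3 ^ r) (3 ^ s)} (hF : F ∈ Wd3 e) (hF' : F' - O F ∈ Wd3 (e - k - 1)) :
    F' ∈ Wd3 (e - k) := by
  have hmono := (hl r s).2.2.2.2.1
  have h1 : O F ∈ Wd3 (e - k) := hO e F hF
  have h3 := Submodule.add_mem _ (hmono _ _ (by linarith) hF') h1
  rwa [sub_add_cancel] at h3

/-- the state -/
private def St (r s : ℕ) (e : ℤ) (G : ℤ → ℤ → ZMod 3) (h : Fin 9 → Fn3 (3 ^ r) (3 ^ s)) : Prop :=
  SymH 3 (r + 1) (s + 1) G ∧ (∀ f : Fin 9, P r s G f ∈ Wd3 e) ∧ ∀ f : Fin 9, P r s G f - h f ∈ Wd3 (e - 1)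

private theorem stU (hr : TRel) (hb : THkB) (h13 : THk 13 T13T) (h17 : THk 17 T17T) (hm : S3Trm)
    (hl : S3Low0) (hu : TLdU)
    {e : ℤ} {G : ℤ → ℤ → ZMod 3} {h : Fin 9 → Fn3 (3 ^ r) (3 ^ s)} (hS : St r s e G h) :
    St r s (e - 2) (UoT (3 ^ (r + 1)) G) (fun f => QoT (h f)) := by
  obtain ⟨hG, hF, h0⟩ := hS
  have hR : RelT (P r s G) := hr (ZMod 3) _ r s G hG
  have key : ∀ i : Fin 9, P r s (UoT (3 ^ (r + 1)) G) i - QoT (P r s G i) ∈ Wd3 (e - 2 - 1) := by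
    intro i
    have l1 := hu r s e (P r s G) hR hF i
    rwa [← PU h13 h17 hm hG i, show e - 3 = e - 2 - 1 by ring] at l1
  exact ⟨symU hb hG, fun f => stepM hl (opQ hl).lw (hF f) (key f),
    fun f => stepL hl (opQ hl).lw (h0 f) (key f)⟩

private theorem stV (hr : TRel) (hb : THkB) (h2 : THk 2 T2T) (h7 : THk 7 T7T) (h11 : THk 11 T11T)
    (h13 : THk 13 T13T) (h17 : THk 17 T17T) (h19 : THk 19 T19T) (h23 : THk 23 T23T) (hm : S3Trm)
    (hl : S3Low0) (hg : TCeG) (hv : TLdV)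
    {e : ℤ} {G : ℤ → ℤ → ZMod 3} {h : Fin 9 → Fn3 (3 ^ r) (3 ^ s)} (hS : St r s e G h) :
    St r s (e - 4) (VoT (3 ^ (r + 1)) G) (fun f => LoT (h f)) := by
  obtain ⟨hG, hF, h0⟩ := hS
  have hR : RelT (P r s G) := hr (ZMod 3) _ r s G hG
  have key : ∀ i : Fin 9, P r s (VoT (3 ^ (r + 1)) G) i - LoT (P r s G i) ∈ Wd3 (e - 4 - 1) := by
    intro i
    have l1 := hv r s e (P r s G) hR hF i
    rwa [← PV hb h2 h7 h11 h13 h17 h19 h23 hm hg hG i, show e - 5 = e - 4 - 1 by ring] at l1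
  exact ⟨symV hb hG, fun f => stepM hl (opLo hl).lw (hF f) (key f),
    fun f => stepL hl (opLo hl).lw (h0 f) (key f)⟩

private theorem itU (hr : TRel) (hb : THkB) (h13 : THk 13 T13T) (h17 : THk 17 T17T) (hm : S3Trm)
    (hl : S3Low0) (hu : TLdU)
    {e : ℤ} {G : ℤ → ℤ → ZMod 3} {h : Fin 9 → Fn3 (3 ^ r) (3 ^ s)} (hS : St r s e G h) (i : ℕ) :
    St r s (e - 2 * i) ((UoT (3 ^ (r + 1)))^[i] G)
      (fun f => (QoT ^ i : Module.End (ZMod 3) (Fn3 (3 ^ r) (3 ^ s))) (h f)) := by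
  induction i with
  | zero => simpa using hS
  | succ i ih =>
    have h4 := stU hr hb h13 h17 hm hl hu ih
    have hp : (QoT ^ (i + 1) : Module.End (ZMod 3) (Fn3 (3 ^ r) (3 ^ s))) = QoT * QoT ^ i := pow_succ' _ _
    have e2 : e - 2 * ((i + 1 : ℕ) : ℤ) = e - 2 * i - 2 := by push_cast; ring
    rw [Function.iterate_succ_apply', hp, e2]
    exact h4

private theorem itV (hr : TRel) (hb : THkB) (h2 : THk 2 T2T) (h7 : THk 7 T7T) (h11 : THk 11 T11T)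
    (h13 : THk 13 T13T) (h17 : THk 17 T17T) (h19 : THk 19 T19T) (h23 : THk 23 T23T) (hm : S3Trm)
    (hl : S3Low0) (hg : TCeG) (hv : TLdV)
    {e : ℤ} {G : ℤ → ℤ → ZMod 3} {h : Fin 9 → Fn3 (3 ^ r) (3 ^ s)} (hS : St r s e G h) (j : ℕ) :
    St r s (e - 4 * j) ((VoT (3 ^ (r + 1)))^[j] G)
      (fun f => (LoT ^ j : Module.End (ZMod 3) (Fn3 (3 ^ r) (3 ^ s))) (h f)) := by
  induction j with
  | zero => simpa using hS
  | succ j ih =>
    have h4 := stV hr hb h2 h7 h11 h13 h17 h19 h23 hm hl hg hv ih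
    have hp : (LoT ^ (j + 1) : Module.End (ZMod 3) (Fn3 (3 ^ r) (3 ^ s))) = LoT * LoT ^ j := pow_succ' _ _
    have e2 : e - 4 * ((j + 1 : ℕ) : ℤ) = e - 4 * j - 4 := by push_cast; ring
    rw [Function.iterate_succ_apply', hp, e2]
    exact h4

private theorem P_zero (G : ℤ → ℤ → ZMod 3) (f : Fin 9) :
    P r s G f 0 0 = G (bsT f).1 (bsT f).2.1 - G (bsT f).2.2.1 (bsT f).2.2.2 := by
  have hY : rY3 1 (0 : ZMod (3 ^ r)) (0 : ZMod (3 ^ s)) = 0 := by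
    unfold rY3
    simp
  have hy : yT (0 : ZMod (3 ^ r)) (0 : ZMod (3 ^ s)) = 0 := by
    unfold yT
    rw [hY, zero_mul]
  have hX : (((0 : ZMod (3 ^ r)).val : ℕ) : ℤ) = 0 := by simp
  unfold P pfT edgeT
  rw [hy, hX]
  simp only [mul_zero, zero_mul, add_zero, one_mul, zero_add]

private theorem e0_eq (G : ℤ → ℤ → ZMod 3) :
    e0T G = (P r s G 0 - P r s G 1 - P r s G 2 - P r s G 4 - P r s G 5) 0 0 := by
  have e : (P r s G 0 - P r s G 1 - P r s G 2 - P r s G 4 - P r s G 5) 0 0 =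
      P r s G 0 0 0 - P r s G 1 0 0 - P r s G 2 0 0 - P r s G 4 0 0 - P r s G 5 0 0 := rfl
  rw [e, P_zero, P_zero, P_zero, P_zero, P_zero]
  simp only [bsT, e0T]
  abel

/-- the value of the last operators -/
private theorem val (hr : TRel) (h2 : THk 2 T2T) (h7 : THk 7 T7T) (h11 : THk 11 T11T)
    (h17 : THk 17 T17T) (h19 : THk 19 T19T) (h23 : THk 23 T23T) (hm : S3Trm) (hp : TLdP)
    {K : ℤ → ℤ → ZMod 3} (hK : SymH 3 (r + 1) (s + 1) K) (c : Fin 6)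
    (hF : ∀ f, P r s K f ∈ Wd3 (aT c.val : ℤ)) :
    e0T (PoT (3 ^ (r + 1)) c.val K) = (phT c.val (P r s K)) 0 0 := by
  have hR : RelT (P r s K) := hr (ZMod 3) _ r s K hK
  have h := hp r s c (P r s K) hR hF
  rw [← h, ev_apply, e0_eq (r := r) (s := s)]
  rw [← PP h2 h7 h11 h17 h19 h23 hm hK c 0, ← PP h2 h7 h11 h17 h19 h23 hm hK c 1,
    ← PP h2 h7 h11 h17 h19 h23 hm hK c 2, ← PP h2 h7 h11 h17 h19 h23 hm hK c 4,
    ← PP h2 h7 h11 h17 h19 h23 hm hK c 5]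

private theorem ev_main (hr : TRel) (hb : THkB) (h2 : THk 2 T2T) (h7 : THk 7 T7T) (h11 : THk 11 T11T)
    (h13 : THk 13 T13T) (h17 : THk 17 T17T) (h19 : THk 19 T19T) (h23 : THk 23 T23T) (hm : S3Trm)
    (hl : S3Low0) (hg : TCeG) (hu : TLdU) (hv : TLdV) (hp : TLdP)
    {G : ℤ → ℤ → ZMod 3} {d : ℕ} (hG : SymH 3 (r + 1) (s + 1) G)
    (hF : ∀ f, P r s G f ∈ Wd3 (d : ℤ)) (c : Fin 6) (i j : ℕ) :
    (d < aT c.val + 2 * i + 4 * j →
      e0T (PoT (3 ^ (r + 1)) c.val ((UoT (3 ^ (r + 1)))^[i] ((VoT (3 ^ (r + 1)))^[j] G))) = 0) ∧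
    (d = aT c.val + 2 * i + 4 * j →
      e0T (PoT (3 ^ (r + 1)) c.val ((UoT (3 ^ (r + 1)))^[i] ((VoT (3 ^ (r + 1)))^[j] G))) =
      ((QoT ^ i * LoT ^ j : Module.End (ZMod 3) (Fn3 (3 ^ r) (3 ^ s))) (phT c.val (P r s G))) 0 0) := by
  have hmono := (hl r s).2.2.2.2.1
  have hz : ∀ F : Fn3 (3 ^ r) (3 ^ s), F ∈ Wd3 (-1) → F = 0 := (hl r s).2.2.2.2.2.2.2.2.2.2.2.2.2
  have hS0 : St r s (d : ℤ) G (P r s G) := by
    refine ⟨hG, hF, fun f => ?_⟩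
    rw [sub_self]
    exact Submodule.zero_mem _
  have hS := itU hr hb h13 h17 hm hl hu (itV hr hb h2 h7 h11 h13 h17 h19 h23 hm hl hg hv hS0 j) i
  obtain ⟨kG, kF, k0⟩ := hS
  have hc : c.val ≤ 5 := by omega
  have hfn := fPh (r := r) (s := s) hl c.val hc
  refine ⟨fun hlt => ?_, fun heq => ?_⟩
  · have hlt' : (d : ℤ) < aT c.val + 2 * i + 4 * j := by exact_mod_cast hlt
    rw [val hr h2 h7 h11 h17 h19 h23 hm hp kG c (fun f => hmono _ _ (by linarith) (kF f))]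
    have h1 := hfn.lo _ _ kF
    rw [hz _ (hmono _ (-1) (by linarith) h1)]
    rfl
  · have heq' : (d : ℤ) = aT c.val + 2 * i + 4 * j := by exact_mod_cast heq
    rw [val hr h2 h7 h11 h17 h19 h23 hm hp kG c (fun f => hmono _ _ (by linarith) (kF f))]
    have h1 := hfn.lo _ _ k0
    rw [← hfn.sb] at h1
    rw [sub_eq_zero.1 (hz _ (hmono _ (-1) (by linarith) h1))]
    have cxy : Commute (dX : Module.End (ZMod 3) (Fn3 (3 ^ r) (3 ^ s))) dY := (hl r s).2.2.2.2.2.2.2.2.1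
    have o1 := oMul hl (oPow hl (opQ (r := r) (s := s) hl) i) (oPow hl (opLo hl) j)
    have cX : Commute (QoT ^ i * LoT ^ j : Module.End (ZMod 3) (Fn3 (3 ^ r) (3 ^ s))) dX :=
      (o1.cm dX (Commute.refl _) cxy).symm
    have cY : Commute (QoT ^ i * LoT ^ j : Module.End (ZMod 3) (Fn3 (3 ^ r) (3 ^ s))) dY :=
      (o1.cm dY cxy.symm (Commute.refl _)).symm
    have h3 := hfn.co _ cX cY (P r s G)
    rw [← h3]
    rfl

end

/-- **ITR.** -/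
theorem hItr (hr : TRel) (hb : THkB) (h2 : THk 2 T2T) (h7 : THk 7 T7T) (h11 : THk 11 T11T)
    (h13 : THk 13 T13T) (h17 : THk 17 T17T) (h19 : THk 19 T19T) (h23 : THk 23 T23T) (hm : S3Trm)
    (hl : S3Low0) (hg : TCeG) (hu : TLdU) (hv : TLdV) (hp : TLdP) : TItr := by
  intro r s G d hG hF c i j hc
  have hF' : ∀ f, P r s G f ∈ Wd3 (d : ℤ) := hF
  have main := fun (c : Fin 6) (i j : ℕ) =>
    ev_main hr hb h2 h7 h11 h13 h17 h19 h23 hm hl hg hu hv hp hG hF' c i j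
  have m0 := main ⟨c, by omega⟩ i j
  unfold evT
  refine ⟨fun hlt => ?_, fun heq => ?_⟩
  · rw [m0.1 hlt]
    split_ifs with h
    · obtain ⟨rfl, hi⟩ := h
      have a3 : aT 3 = 3 := rfl
      have m1 := (main 1 (i - 1) (j + 1)).1 (by
        show d < 1 + 2 * (i - 1) + 4 * (j + 1)
        omega)
      have m2 := (main 2 (i - 1) (j + 1)).1 (by
        show d < 1 + 2 * (i - 1) + 4 * (j + 1)
        omega)
      have m1' : e0T (PoT (3 ^ (r + 1)) 1 ((UoT (3 ^ (r + 1)))^[i - 1] ((VoT (3 ^ (r + 1)))^[j + 1] G))) = 0 := m1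
      have m2' : e0T (PoT (3 ^ (r + 1)) 2 ((UoT (3 ^ (r + 1)))^[i - 1] ((VoT (3 ^ (r + 1)))^[j + 1] G))) = 0 := m2
      rw [m1', m2']
      simp
    · simp
  · rw [m0.2 heq.symm]
    split_ifs with h
    · obtain ⟨rfl, hi⟩ := h
      have a3 : aT 3 = 3 := rfl
      have m1 := (main 1 (i - 1) (j + 1)).2 (by
        show d = 1 + 2 * (i - 1) + 4 * (j + 1)
        omega)
      have m2 := (main 2 (i - 1) (j + 1)).2 (by
        show d = 1 + 2 * (i - 1) + 4 * (j + 1)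
        omega)
      have m1' : e0T (PoT (3 ^ (r + 1)) 1 ((UoT (3 ^ (r + 1)))^[i - 1] ((VoT (3 ^ (r + 1)))^[j + 1] G))) = _ := m1
      have m2' : e0T (PoT (3 ^ (r + 1)) 2 ((UoT (3 ^ (r + 1)))^[i - 1] ((VoT (3 ^ (r + 1)))^[j + 1] G))) = _ := m2
      rw [m1', m2', map_sub]
      rfl
    · rfl

end Pool.Agent.Helper73.T53
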